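import Mathlib
import Pool.Agent.N229.PG.Stm

/-! Project PG, leaf K2: Hoelder estimate of the power function in the right half plane. -/

set_option autoImplicit false

namespace PG

open Complex Filter Topology Metric Set

lemma k2_half {α : ℝ} (h0 : 0 < α) (h1 : α < 1) (s t : ℂ) (hs : 0 ≤ s.re) (ht : 0 ≤ t.re)
    (hts : ‖t‖ ≤ ‖s‖) : ‖s ^ (α : ℂ) - t ^ (α : ℂ)‖ ≤ 4 * ‖s - t‖ ^ α := by
  rcases le_or_gt (‖s‖ / 2) ‖s - t‖ with hA | hB
  · have e1 : ‖s ^ (α : ℂ)‖ = ‖s‖ ^ α := Complex.norm_cpow_real s α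
    have e2 : ‖t ^ (α : ℂ)‖ = ‖t‖ ^ α := Complex.norm_cpow_real t α
    have e3 : ‖t‖ ^ α ≤ ‖s‖ ^ α := Real.rpow_le_rpow (norm_nonneg _) hts h0.le
    have e4 : ‖s‖ ^ α ≤ (2 * ‖s - t‖) ^ α :=
      Real.rpow_le_rpow (norm_nonneg _) (by linarith) h0.le
    have e5 : (2 * ‖s - t‖) ^ α = 2 ^ α * ‖s - t‖ ^ α :=
      Real.mul_rpow (by norm_num) (norm_nonneg _)
    have e6 : (2 : ℝ) ^ α ≤ 2 := by
      have := Real.rpow_le_rpow_of_exponent_le (x := (2 : ℝ)) (by norm_num) h1.le
      rwa [Real.rpow_one] at this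
    have e7 : 0 ≤ ‖s - t‖ ^ α := Real.rpow_nonneg (norm_nonneg _) _
    have e8 := norm_sub_le (s ^ (α : ℂ)) (t ^ (α : ℂ))
    rw [e1, e2] at e8
    rw [e5] at e4
    nlinarith
  · by_cases hst : s = t
    · subst hst
      rw [sub_self, sub_self, norm_zero, Real.zero_rpow h0.ne', mul_zero]
    · have hpos : 0 < ‖s - t‖ := norm_pos_iff.2 (sub_ne_zero.2 hst)
      have hseg : ∀ w ∈ segment ℝ t s, 0 ≤ w.re ∧ ‖s - t‖ < ‖w‖ := by
        rintro w ⟨a, b, ha, hb, hab, rfl⟩
        constructor
        · simp only [Complex.add_re, Complex.real_smul, Complex.mul_re, Complex.ofReal_re,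
            Complex.ofReal_im, zero_mul, sub_zero]
          positivity
        · have e1 : s - (a • t + b • s) = a • (s - t) := by
            have hb' : b = 1 - a := by linarith
            rw [hb']
            simp only [Complex.real_smul]
            push_cast
            ring
          have e2 : ‖s - (a • t + b • s)‖ ≤ ‖s - t‖ := by
            rw [e1, norm_smul, Real.norm_of_nonneg ha]
            have : a ≤ 1 := by linarith
            nlinarith [norm_nonneg (s - t)]
          have e3 : ‖s‖ ≤ ‖s - (a • t + b • s)‖ + ‖a • t + b • s‖ := by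
            have := norm_add_le (s - (a • t + b • s)) (a • t + b • s)
            rwa [sub_add_cancel] at this
          linarith
      have hderiv : ∀ w ∈ segment ℝ t s, HasDerivWithinAt (fun z : ℂ => z ^ (α : ℂ))
          ((α : ℂ) * w ^ ((α : ℂ) - 1) * 1) (segment ℝ t s) w := by
        intro w hw
        obtain ⟨hw1, hw2⟩ := hseg w hw
        have hw0 : w ≠ 0 := norm_pos_iff.1 (hpos.trans hw2)
        have hsl : w ∈ Complex.slitPlane := by
          rw [Complex.mem_slitPlane_iff]
          rcases hw1.lt_or_eq with h | h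
          · exact Or.inl h
          · refine Or.inr fun him => hw0 (Complex.ext h.symm him)
        exact ((hasDerivAt_id w).cpow_const hsl).hasDerivWithinAt
      have hbound : ∀ w ∈ segment ℝ t s,
          ‖(α : ℂ) * w ^ ((α : ℂ) - 1) * 1‖ ≤ ‖s - t‖ ^ (α - 1) := by
        intro w hw
        obtain ⟨hw1, hw2⟩ := hseg w hw
        have e1 : ‖w ^ ((α : ℂ) - 1)‖ = ‖w‖ ^ (α - 1) := by
          have := Complex.norm_cpow_real w (α - 1)
          push_cast at this
          exact this
        have e2 : ‖w‖ ^ (α - 1) ≤ ‖s - t‖ ^ (α - 1) :=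
          Real.rpow_le_rpow_of_nonpos hpos hw2.le (by linarith)
        rw [mul_one, norm_mul, e1, Complex.norm_real, Real.norm_of_nonneg h0.le]
        have e3 : 0 ≤ ‖w‖ ^ (α - 1) := Real.rpow_nonneg (norm_nonneg _) _
        nlinarith
      have hmv := Convex.norm_image_sub_le_of_norm_hasDerivWithin_le hderiv hbound
        (convex_segment t s) (left_mem_segment ℝ t s) (right_mem_segment ℝ t s)
      have e4 : ‖s - t‖ ^ (α - 1) * ‖s - t‖ = ‖s - t‖ ^ α := by
        rw [Real.rpow_sub_one hpos.ne', div_mul_cancel₀ _ hpos.ne']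
      rw [e4] at hmv
      have e7 : 0 ≤ ‖s - t‖ ^ α := Real.rpow_nonneg (norm_nonneg _) _
      linarith

theorem leaf_K2 : StmK2 := by
  intro α h0 h1
  refine ⟨4, by norm_num, fun s t hs ht => ?_⟩
  rcases le_total ‖t‖ ‖s‖ with h | h
  · exact k2_half h0 h1 s t hs ht h
  · rw [norm_sub_rev, norm_sub_rev s t]
    exact k2_half h0 h1 t s ht hs h

end PG
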